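import Mathlib

/-!
# r-graphs and edge colourings: definitions

A finite loopless multigraph is given by two maps `src tgt : E → V` (the two ends of each edge; the
order of the two ends plays no role).
-/

set_option autoImplicit false

namespace Pool.Agent.MP_fafec5_co

variable {V E : Type} [Fintype V] [Fintype E] [DecidableEq V]

/-- `(V, E)` is an `r`-graph: no loops, an even number of vertices, every vertex is an end of
exactly `r` edges, and every vertex set of odd size is left by at least `r` edges. -/
structure IsRGraph (src tgt : E → V) (r : ℕ) : Prop where
  loopless : ∀ e, src e ≠ tgt e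
  even : Even (Fintype.card V)
  regular : ∀ x, (Finset.univ.filter fun e => src e = x ∨ tgt e = x).card = r
  cut : ∀ X : Finset V, Odd X.card →
    r ≤ (Finset.univ.filter fun e => (src e ∈ X ∧ tgt e ∉ X) ∨ (src e ∉ X ∧ tgt e ∈ X)).card

/-- The edge set is partitioned into the `r` perfect matchings `c = i`: every vertex is an end of
exactly one edge of each colour. -/
def MatchingPartition (src tgt : E → V) {r : ℕ} (c : E → Fin r) : Prop :=
  ∀ x i, ∃! e, (src e = x ∨ tgt e = x) ∧ c e = i

end Pool.Agent.MP_fafec5_co
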