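import Mathlib

/-!
# Degree-constrained subgraphs and edge colourings of bipartite multigraphs

Edges form a type `E`, the bipartition is given by two maps `p q : E → V` (the two ends).
-/

set_option autoImplicit false

namespace Pool.Agent.MP_fafec5_co

open Finset

variable {V E : Type} [Fintype V] [DecidableEq V] [DecidableEq E]

/-- **Factor lemma.**  In a bipartite multigraph with edge set `S` and ends `p e`, `q e`, there is a
set of edges with degree `g x` at each left vertex and `h y` at each right vertex, provided the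
totals agree and the cut condition holds. -/
theorem exists_factor (S : Finset E) (p q : E → V) (g h : V → ℕ)
    (hsum : ∑ x, g x = ∑ y, h y)
    (hcond : ∀ X Y : Finset V, ∑ y ∈ Y, h y ≤
      ∑ x ∈ X, g x + (S.filter fun e => p e ∉ X ∧ q e ∈ Y).card) :
    ∃ F ⊆ S, (∀ x, (F.filter fun e => p e = x).card = g x) ∧
      ∀ y, (F.filter fun e => q e = y).card = h y := by
  classical
  -- left objects: edges and cores of right vertices; right objects: edges and cores of left ones
  let L := {e // e ∈ S} ⊕ (Σ y : V, Fin (h y))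
  let R := {e // e ∈ S} ⊕ (Σ x : V, Fin (g x))
  let t : L → Finset R := fun l => match l with
    | Sum.inl e => insert (Sum.inl e) (univ.image fun i : Fin (g (p e.1)) => Sum.inr ⟨p e.1, i⟩)
    | Sum.inr c => (univ.filter fun e : {e // e ∈ S} => q e.1 = c.1).image Sum.inl
  have hall : ∀ T : Finset L, T.card ≤ (T.biUnion t).card := by
    intro T
    let ET : Finset {e // e ∈ S} := univ.filter fun e => Sum.inl e ∈ T
    let CT : Finset (Σ y : V, Fin (h y)) := univ.filter fun c => Sum.inr c ∈ T
    let X : Finset V := ET.image fun e => p e.1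
    let Y : Finset V := CT.image fun c => c.1
    have hT : T.card = ET.card + CT.card := by
      have h1 : T = ET.image Sum.inl ∪ CT.image Sum.inr := by
        ext l
        constructor
        · intro hl
          rcases l with e | c
          · exact mem_union_left _ (mem_image.mpr ⟨e, mem_filter.mpr ⟨mem_univ _, hl⟩, rfl⟩)
          · exact mem_union_right _ (mem_image.mpr ⟨c, mem_filter.mpr ⟨mem_univ _, hl⟩, rfl⟩)
        · intro hl
          rcases mem_union.mp hl with hl | hl
          · obtain ⟨a, ha, rfl⟩ := mem_image.mp hl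
            exact (mem_filter.mp ha).2
          · obtain ⟨a, ha, rfl⟩ := mem_image.mp hl
            exact (mem_filter.mp ha).2
      rw [h1, card_union_of_disjoint, card_image_of_injective _ Sum.inl_injective,
        card_image_of_injective _ Sum.inr_injective]
      rw [disjoint_left]
      intro l hl hl'
      rw [mem_image] at hl hl'
      obtain ⟨a, _, rfl⟩ := hl
      obtain ⟨b, _, hb⟩ := hl'
      cases hb
    have hCT : CT.card ≤ ∑ y ∈ Y, h y := by
      have h2 : CT ⊆ Y.sigma fun y => (univ : Finset (Fin (h y))) := by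
        intro c hc
        rw [mem_sigma]
        exact ⟨mem_image.mpr ⟨c, hc, rfl⟩, mem_univ _⟩
      refine (card_le_card h2).trans ?_
      rw [card_sigma]
      simp
    -- the neighbourhood
    let EN : Finset {e // e ∈ S} := univ.filter fun e => e ∉ ET ∧ p e.1 ∉ X ∧ q e.1 ∈ Y
    let CN : Finset (Σ x : V, Fin (g x)) := X.sigma fun x => (univ : Finset (Fin (g x)))
    have hsub : (ET ∪ EN).image Sum.inl ∪ CN.image Sum.inr ⊆ T.biUnion t := by
      intro l hl
      rw [mem_union] at hl
      rw [mem_biUnion]
      rcases hl with hl | hl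
      · obtain ⟨e, he, rfl⟩ := mem_image.mp hl
        rw [mem_union] at he
        rcases he with he | he
        · refine ⟨Sum.inl e, (mem_filter.mp he).2, ?_⟩
          exact mem_insert_self _ _
        · obtain ⟨_, _, _, he⟩ := mem_filter.mp he
          obtain ⟨c, hc, hce⟩ := mem_image.mp he
          refine ⟨Sum.inr c, (mem_filter.mp hc).2, ?_⟩
          exact mem_image.mpr ⟨e, mem_filter.mpr ⟨mem_univ _, hce.symm⟩, rfl⟩
      · obtain ⟨⟨x, i⟩, hc, rfl⟩ := mem_image.mp hl
        obtain ⟨hx, _⟩ := mem_sigma.mp hc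
        obtain ⟨e, he, hex⟩ := mem_image.mp hx
        refine ⟨Sum.inl e, (mem_filter.mp he).2, ?_⟩
        subst hex
        exact mem_insert_of_mem (mem_image.mpr ⟨i, mem_univ _, rfl⟩)
    have hcard : (ET ∪ EN).card + CN.card ≤ (T.biUnion t).card := by
      refine le_trans (le_of_eq ?_) (card_le_card hsub)
      have hd : Disjoint ((ET ∪ EN).image Sum.inl : Finset R) (CN.image Sum.inr) := by
        rw [disjoint_left]
        intro l hl hl'
        rw [mem_image] at hl hl'
        obtain ⟨a, _, rfl⟩ := hl
        obtain ⟨b, _, hb⟩ := hl'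
        cases hb
      rw [card_union_of_disjoint hd, card_image_of_injective _ Sum.inl_injective,
        card_image_of_injective _ Sum.inr_injective]
    have hdisj : (ET ∪ EN).card = ET.card + EN.card := by
      apply card_union_of_disjoint
      rw [disjoint_left]
      intro e he he'
      exact (mem_filter.mp he').2.1 he
    have hEN : EN.card = (S.filter fun e => p e ∉ X ∧ q e ∈ Y).card := by
      apply card_bij (fun e _ => e.1)
      · intro e he
        obtain ⟨_, _, h1, h2⟩ := mem_filter.mp he
        exact mem_filter.mpr ⟨e.2, h1, h2⟩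
      · intro a _ b _ hab
        exact Subtype.ext hab
      · intro e he
        obtain ⟨h1, h2, h3⟩ := mem_filter.mp he
        refine ⟨⟨e, h1⟩, mem_filter.mpr ⟨mem_univ _, ?_, h2, h3⟩, rfl⟩
        intro hcon
        exact h2 (mem_image.mpr ⟨⟨e, h1⟩, hcon, rfl⟩)
    have hCN : CN.card = ∑ x ∈ X, g x := by
      rw [card_sigma]
      simp
    have := hcond X Y
    omega
  obtain ⟨φ, hφ, hφt⟩ := (all_card_le_biUnion_card_iff_exists_injective t).mp hall
  have hcardLR : Fintype.card L = Fintype.card R := by
    simp only [L, R, Fintype.card_sum, Fintype.card_sigma, Fintype.card_fin]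
    rw [hsum]
  have hbij : Function.Bijective φ := (Fintype.bijective_iff_injective_and_card φ).mpr
    ⟨hφ, hcardLR⟩
  let F : Finset E := (univ.filter fun e : {e // e ∈ S} => φ (Sum.inl e) ≠ Sum.inl e).image
    Subtype.val
  have hF : ∀ e (he : e ∈ S), e ∈ F ↔ φ (Sum.inl ⟨e, he⟩) ≠ Sum.inl ⟨e, he⟩ := by
    intro e he
    constructor
    · intro h1
      obtain ⟨e', he', rfl⟩ := mem_image.mp h1
      exact (mem_filter.mp he').2
    · intro h1
      exact mem_image.mpr ⟨⟨e, he⟩, mem_filter.mpr ⟨mem_univ _, h1⟩, rfl⟩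
  have hFS : F ⊆ S := by
    intro e he
    obtain ⟨e', _, rfl⟩ := mem_image.mp he
    exact e'.2
  -- where the edges go
  have hinl : ∀ e : {e // e ∈ S}, φ (Sum.inl e) ≠ Sum.inl e →
      ∃ i, φ (Sum.inl e) = Sum.inr ⟨p e.1, i⟩ := by
    intro e he
    have h1 := hφt (Sum.inl e)
    rcases mem_insert.mp h1 with h2 | h2
    · exact absurd h2 he
    · obtain ⟨i, _, hi⟩ := mem_image.mp h2
      exact ⟨i, hi.symm⟩
  have hinr : ∀ c : (Σ y : V, Fin (h y)), ∃ e : {e // e ∈ S}, q e.1 = c.1 ∧
      φ (Sum.inr c) = Sum.inl e := by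
    intro c
    obtain ⟨e, he, hi⟩ := mem_image.mp (hφt (Sum.inr c))
    exact ⟨e, (mem_filter.mp he).2, hi.symm⟩
  refine ⟨F, hFS, ?_, ?_⟩
  · intro x
    -- cores of `x` correspond to edges of `F` at `x`
    rw [← Fintype.card_fin (g x), ← card_univ]
    symm
    have hpre : ∀ i : Fin (g x), ∃ e : {e // e ∈ S}, φ (Sum.inl e) = Sum.inr ⟨x, i⟩ := by
      intro i
      obtain ⟨l, hl⟩ := hbij.2 (Sum.inr ⟨x, i⟩)
      rcases l with e | c
      · exact ⟨e, hl⟩
      · obtain ⟨e, _, he⟩ := hinr c
        rw [he] at hl
        cases hl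
    choose ψ hψ using hpre
    apply card_bij (fun i _ => (ψ i).1)
    · intro i _
      have h1 : φ (Sum.inl (ψ i)) ≠ Sum.inl (ψ i) := by
        rw [hψ i]
        intro h2
        cases h2
      obtain ⟨j, hj⟩ := hinl _ h1
      rw [hψ i] at hj
      have h3 : x = p (ψ i).1 := congrArg Sigma.fst (Sum.inr_injective hj)
      exact mem_filter.mpr ⟨(hF _ (ψ i).2).mpr h1, h3.symm⟩
    · intro i _ j _ hij
      have h1 : ψ i = ψ j := Subtype.ext hij
      have h2 : (Sum.inr ⟨x, i⟩ : R) = Sum.inr ⟨x, j⟩ := by
        rw [← hψ i, ← hψ j, h1]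
      have h3 := Sum.inr_injective h2
      exact eq_of_heq (Sigma.mk.inj h3).2
    · intro e he
      obtain ⟨h1, h2⟩ := mem_filter.mp he
      have h3 := (hF e (hFS h1)).mp h1
      obtain ⟨i, hi⟩ := hinl ⟨e, hFS h1⟩ h3
      subst h2
      refine ⟨i, mem_univ _, ?_⟩
      have h4 : (Sum.inl (ψ i) : L) = Sum.inl ⟨e, hFS h1⟩ := by
        apply hφ
        rw [hψ i, hi]
      exact congrArg Subtype.val (Sum.inl_injective h4)
  · intro y
    rw [← Fintype.card_fin (h y), ← card_univ]
    symm
    choose ψ hψ1 hψ2 using hinr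
    apply card_bij (fun i _ => (ψ ⟨y, i⟩).1)
    · intro i _
      refine mem_filter.mpr ⟨(hF _ (ψ ⟨y, i⟩).2).mpr ?_, hψ1 ⟨y, i⟩⟩
      intro h1
      have h2 : (Sum.inl (ψ ⟨y, i⟩) : L) = Sum.inr ⟨y, i⟩ := by
        apply hφ
        rw [hψ2 ⟨y, i⟩]
        exact h1
      cases h2
    · intro i _ j _ hij
      have h1 : ψ ⟨y, i⟩ = ψ ⟨y, j⟩ := Subtype.ext hij
      have h2 : (Sum.inr ⟨y, i⟩ : L) = Sum.inr ⟨y, j⟩ := by
        apply hφ
        rw [hψ2 ⟨y, i⟩, hψ2 ⟨y, j⟩, h1]
      have h3 := Sum.inr_injective h2
      exact eq_of_heq (Sigma.mk.inj h3).2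
    · intro e he
      obtain ⟨h1, h2⟩ := mem_filter.mp he
      have h3 := (hF e (hFS h1)).mp h1
      obtain ⟨l, hl⟩ := hbij.2 (Sum.inl ⟨e, hFS h1⟩)
      rcases l with e' | c
      · by_cases h4 : φ (Sum.inl e') = Sum.inl e'
        · rw [h4] at hl
          have h5 : e' = ⟨e, hFS h1⟩ := Sum.inl_injective hl
          rw [h5] at h4
          exact absurd h4 h3
        · obtain ⟨i, hi⟩ := hinl e' h4
          rw [hi] at hl
          cases hl
      · obtain ⟨y', i⟩ := c
        have h5 : ψ ⟨y', i⟩ = ⟨e, hFS h1⟩ := by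
          have := hψ2 ⟨y', i⟩
          rw [hl] at this
          exact (Sum.inl_injective this).symm
        have h6 : y' = y := by
          have := hψ1 ⟨y', i⟩
          rw [h5] at this
          exact this.symm.trans h2
        subst h6
        exact ⟨i, mem_univ _, congrArg Subtype.val h5⟩

/-- **König's theorem** for regular bipartite multigraphs: an edge set `S` whose edges have one end
`p e` in `Z` and the other end `q e` outside, with `k` edges at each vertex, has a `k`-edge
colouring in which every vertex sees every colour exactly once. -/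
theorem exists_colouring (Z : Finset V) (p q : E → V) (k : ℕ) : ∀ S : Finset E,
    (∀ e ∈ S, p e ∈ Z ∧ q e ∉ Z) →
    (∀ x ∈ Z, (S.filter fun e => p e = x).card = k) →
    (∀ y ∉ Z, (S.filter fun e => q e = y).card = k) →
    ∃ c : E → ℕ, (∀ e ∈ S, c e < k) ∧
      (∀ x ∈ Z, ∀ i < k, (S.filter fun e => p e = x ∧ c e = i).card = 1) ∧
      (∀ y ∉ Z, ∀ i < k, (S.filter fun e => q e = y ∧ c e = i).card = 1) := by
  classical
  induction k with
  | zero =>
    intro S hS hp hq
    have hemp : S = ∅ := by
      rw [eq_empty_iff_forall_notMem]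
      intro e he
      have h1 := hp (p e) (hS e he).1
      rw [card_eq_zero, filter_eq_empty_iff] at h1
      exact h1 he rfl
    subst hemp
    exact ⟨fun _ => 0, by simp, fun x _ i hi => absurd hi (Nat.not_lt_zero i),
      fun x _ i hi => absurd hi (Nat.not_lt_zero i)⟩
  | succ k ih =>
    intro S hS hp hq
    have hpS : ∀ X : Finset V, X ⊆ Z → (S.filter fun e => p e ∈ X).card = (k + 1) * X.card := by
      intro X hX
      rw [card_eq_sum_card_fiberwise (s := S.filter fun e => p e ∈ X) (f := p) (t := X)
        (fun e he => (mem_filter.mp (mem_coe.mp he)).2), mul_comm, ← smul_eq_mul, ← sum_const]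
      apply sum_congr rfl
      intro x hx
      rw [← hp x (hX hx), filter_filter]
      congr 1
      ext e
      simp only [mem_filter]
      constructor
      · rintro ⟨h1, _, h3⟩
        exact ⟨h1, h3⟩
      · rintro ⟨h1, h3⟩
        exact ⟨h1, h3 ▸ hx, h3⟩
    have hqS : ∀ Y : Finset V, Disjoint Y Z →
        (S.filter fun e => q e ∈ Y).card = (k + 1) * Y.card := by
      intro Y hY
      rw [card_eq_sum_card_fiberwise (s := S.filter fun e => q e ∈ Y) (f := q) (t := Y)
        (fun e he => (mem_filter.mp (mem_coe.mp he)).2), mul_comm, ← smul_eq_mul, ← sum_const]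
      apply sum_congr rfl
      intro y hy
      rw [← hq y (disjoint_left.mp hY hy), filter_filter]
      congr 1
      ext e
      simp only [mem_filter]
      constructor
      · rintro ⟨h1, _, h3⟩
        exact ⟨h1, h3⟩
      · rintro ⟨h1, h3⟩
        exact ⟨h1, h3 ▸ hy, h3⟩
    -- a perfect matching
    have hZ : (k + 1) * Z.card = (k + 1) * Zᶜ.card := by
      rw [← hpS Z subset_rfl, ← hqS Zᶜ (disjoint_compl_left)]
      congr 1
      ext e
      simp only [mem_filter, mem_compl]
      constructor
      · rintro ⟨h1, _⟩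
        exact ⟨h1, (hS e h1).2⟩
      · rintro ⟨h1, _⟩
        exact ⟨h1, (hS e h1).1⟩
    have hZ' : Z.card = Zᶜ.card := Nat.eq_of_mul_eq_mul_left (Nat.succ_pos k) hZ
    have hg1 : ∀ X : Finset V, ∑ x ∈ X, (if x ∈ Z then 1 else 0) = (X ∩ Z).card := by
      intro X
      rw [sum_ite_mem, sum_const, smul_eq_mul, mul_one]
    have hh1 : ∀ Y : Finset V, ∑ y ∈ Y, (if y ∈ Z then 0 else 1) = (Y \ Z).card := by
      intro Y
      rw [sum_ite, sum_const_zero, zero_add, sum_const, smul_eq_mul, mul_one]
      congr 1
      ext y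
      simp only [mem_filter, mem_sdiff]
    obtain ⟨F, hFS, hF1, hF2⟩ := exists_factor S p q (fun x => if x ∈ Z then 1 else 0)
      (fun y => if y ∈ Z then 0 else 1) (by
        rw [hg1, hh1, univ_inter, ← compl_eq_univ_sdiff]
        exact hZ') (by
        intro X Y
        rw [hg1, hh1]
        have h1 := hqS (Y \ Z) disjoint_sdiff_self_left
        have h2 := hpS (X ∩ Z) inter_subset_right
        have h3 : (S.filter fun e => q e ∈ Y \ Z).card ≤
            (S.filter fun e => p e ∈ X ∩ Z).card + (S.filter fun e => p e ∉ X ∧ q e ∈ Y).card := by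
          refine (card_le_card ?_).trans (card_union_le _ _)
          intro e he
          obtain ⟨h4, h5⟩ := mem_filter.mp he
          by_cases h6 : p e ∈ X
          · exact mem_union_left _ (mem_filter.mpr ⟨h4, mem_inter.mpr ⟨h6, (hS e h4).1⟩⟩)
          · exact mem_union_right _ (mem_filter.mpr ⟨h4, h6, (mem_sdiff.mp h5).1⟩)
        rw [h1, h2] at h3
        have h4 : (k + 1) * (Y \ Z).card ≤ (k + 1) * ((X ∩ Z).card +
            (S.filter fun e => p e ∉ X ∧ q e ∈ Y).card) := by
          refine h3.trans ?_
          rw [mul_add]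
          exact Nat.add_le_add_left (Nat.le_mul_of_pos_left _ (Nat.succ_pos k)) _
        exact Nat.le_of_mul_le_mul_left h4 (Nat.succ_pos k))
    -- the rest has degrees `k`
    have hrest : ∀ (f : E → V) (x : V), (F.filter fun e => f e = x).card = 1 →
        (S.filter fun e => f e = x).card = k + 1 →
        ((S \ F).filter fun e => f e = x).card = k := by
      intro f x h1 h2
      have h3 : (S \ F).filter (fun e => f e = x) =
          S.filter (fun e => f e = x) \ F.filter (fun e => f e = x) := by
        ext e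
        simp only [mem_filter, mem_sdiff]
        tauto
      rw [h3, card_sdiff_of_subset (filter_subset_filter _ hFS), h1, h2]
      rfl
    obtain ⟨c, hc1, hc2, hc3⟩ := ih (S \ F) (fun e he => hS e (mem_sdiff.mp he).1)
      (fun x hx => hrest p x (by rw [hF1 x, if_pos hx]) (hp x hx))
      (fun y hy => hrest q y (by rw [hF2 y, if_neg hy]) (hq y hy))
    have hcol : ∀ (f : E → V) (x : V), (F.filter fun e => f e = x).card = 1 →
        (∀ i < k, ((S \ F).filter fun e => f e = x ∧ c e = i).card = 1) →
        ∀ i < k + 1, (S.filter fun e => f e = x ∧ (if e ∈ F then k else c e) = i).card = 1 := by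
      intro f x h1 h2 i hi
      rcases Nat.lt_succ_iff_lt_or_eq.mp hi with h3 | h3
      · rw [← h2 i h3]
        congr 1
        ext e
        simp only [mem_filter, mem_sdiff]
        by_cases h4 : e ∈ F
        · rw [if_pos h4]
          constructor
          · rintro ⟨_, _, h5⟩
            omega
          · rintro ⟨⟨_, h5⟩, _⟩
            exact absurd h4 h5
        · rw [if_neg h4]
          tauto
      · rw [← h1]
        congr 1
        ext e
        simp only [mem_filter]
        by_cases h4 : e ∈ F
        · rw [if_pos h4]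
          constructor
          · rintro ⟨_, h5, _⟩
            exact ⟨h4, h5⟩
          · rintro ⟨_, h5⟩
            exact ⟨hFS h4, h5, h3.symm⟩
        · rw [if_neg h4]
          constructor
          · rintro ⟨h5, _, h6⟩
            have := hc1 e (mem_sdiff.mpr ⟨h5, h4⟩)
            omega
          · rintro ⟨h5, _⟩
            exact absurd h5 h4
    refine ⟨fun e => if e ∈ F then k else c e, ?_, ?_, ?_⟩
    · intro e he
      by_cases h4 : e ∈ F
      · simp only [if_pos h4]
        exact Nat.lt_succ_self k
      · simp only [if_neg h4]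
        exact (hc1 e (mem_sdiff.mpr ⟨he, h4⟩)).trans (Nat.lt_succ_self k)
    · intro x hx
      exact hcol p x (by rw [hF1 x, if_pos hx]) (hc2 x hx)
    · intro y hy
      exact hcol q y (by rw [hF2 y, if_neg hy]) (hc3 y hy)

end Pool.Agent.MP_fafec5_co
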