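import Mathlib
import Pool.Agent.Lib.MP_fafec5_co.Factor

/-!
# Incidence forms of the factor lemma and of König's theorem; counting edges between sets
-/

set_option autoImplicit false
set_option linter.unusedSectionVars false

namespace Pool.Agent.MP_fafec5_co

open Finset

variable {V E : Type} [Fintype V] [DecidableEq V] [DecidableEq E]

section inc

variable (src tgt : E → V)

/-- edges with exactly one end in `Z` -/
def Cross (Z : Finset V) (e : E) : Prop := (src e ∈ Z ∧ tgt e ∉ Z) ∨ (src e ∉ Z ∧ tgt e ∈ Z)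

/-- the end in `Z` -/
def pe (Z : Finset V) (e : E) : V := if src e ∈ Z then src e else tgt e

/-- the end outside `Z` -/
def qe (Z : Finset V) (e : E) : V := if src e ∈ Z then tgt e else src e

theorem pe_mem {Z : Finset V} {e : E} (h : Cross src tgt Z e) : pe src tgt Z e ∈ Z := by
  unfold pe
  rcases h with h | h
  · rw [if_pos h.1]; exact h.1
  · rw [if_neg h.1]; exact h.2

theorem qe_notMem {Z : Finset V} {e : E} (h : Cross src tgt Z e) : qe src tgt Z e ∉ Z := by
  unfold qe
  rcases h with h | h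
  · rw [if_pos h.1]; exact h.2
  · rw [if_neg h.1]; exact h.1

theorem pe_eq_iff {Z : Finset V} {e : E} (h : Cross src tgt Z e) {x : V} (hx : x ∈ Z) :
    pe src tgt Z e = x ↔ (src e = x ∨ tgt e = x) := by
  unfold pe
  rcases h with h | h
  · rw [if_pos h.1]
    constructor
    · exact fun h1 => Or.inl h1
    · rintro (h1 | h1)
      · exact h1
      · rw [h1] at h
        exact absurd hx h.2
  · rw [if_neg h.1]
    constructor
    · exact fun h1 => Or.inr h1
    · rintro (h1 | h1)
      · rw [h1] at h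
        exact absurd hx h.1
      · exact h1

theorem qe_eq_iff {Z : Finset V} {e : E} (h : Cross src tgt Z e) {x : V} (hx : x ∉ Z) :
    qe src tgt Z e = x ↔ (src e = x ∨ tgt e = x) := by
  unfold qe
  rcases h with h | h
  · rw [if_pos h.1]
    constructor
    · exact fun h1 => Or.inr h1
    · rintro (h1 | h1)
      · rw [h1] at h
        exact absurd h.1 hx
      · exact h1
  · rw [if_neg h.1]
    constructor
    · exact fun h1 => Or.inl h1
    · rintro (h1 | h1)
      · exact h1
      · rw [h1] at h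
        exact absurd h.2 hx

/-- König's theorem, incidence form -/
theorem konig_inc (Z : Finset V) (S : Finset E) (k : ℕ) (hS : ∀ e ∈ S, Cross src tgt Z e)
    (hdeg : ∀ x, (S.filter fun e => src e = x ∨ tgt e = x).card = k) :
    ∃ c : E → ℕ, (∀ e ∈ S, c e < k) ∧
      ∀ x, ∀ i < k, (S.filter fun e => (src e = x ∨ tgt e = x) ∧ c e = i).card = 1 := by
  classical
  obtain ⟨c, hc1, hc2, hc3⟩ := exists_colouring Z (pe src tgt Z) (qe src tgt Z) k S
    (fun e he => ⟨pe_mem src tgt (hS e he), qe_notMem src tgt (hS e he)⟩)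
    (fun x hx => by
      rw [← hdeg x]
      congr 1
      ext e
      simp only [mem_filter]
      constructor
      · rintro ⟨h1, h2⟩
        exact ⟨h1, (pe_eq_iff src tgt (hS e h1) hx).mp h2⟩
      · rintro ⟨h1, h2⟩
        exact ⟨h1, (pe_eq_iff src tgt (hS e h1) hx).mpr h2⟩)
    (fun x hx => by
      rw [← hdeg x]
      congr 1
      ext e
      simp only [mem_filter]
      constructor
      · rintro ⟨h1, h2⟩
        exact ⟨h1, (qe_eq_iff src tgt (hS e h1) hx).mp h2⟩
      · rintro ⟨h1, h2⟩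
        exact ⟨h1, (qe_eq_iff src tgt (hS e h1) hx).mpr h2⟩)
  refine ⟨c, hc1, fun x i hi => ?_⟩
  by_cases hx : x ∈ Z
  · rw [← hc2 x hx i hi]
    congr 1
    ext e
    simp only [mem_filter]
    constructor
    · rintro ⟨h1, h2, h3⟩
      exact ⟨h1, (pe_eq_iff src tgt (hS e h1) hx).mpr h2, h3⟩
    · rintro ⟨h1, h2, h3⟩
      exact ⟨h1, (pe_eq_iff src tgt (hS e h1) hx).mp h2, h3⟩
  · rw [← hc3 x hx i hi]
    congr 1
    ext e
    simp only [mem_filter]
    constructor
    · rintro ⟨h1, h2, h3⟩
      exact ⟨h1, (qe_eq_iff src tgt (hS e h1) hx).mpr h2, h3⟩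
    · rintro ⟨h1, h2, h3⟩
      exact ⟨h1, (qe_eq_iff src tgt (hS e h1) hx).mp h2, h3⟩

/-- the factor lemma, incidence form -/
theorem factor_inc (Z : Finset V) (S : Finset E) (g : V → ℕ)
    (hS : ∀ e ∈ S, Cross src tgt Z e) (hsum : ∑ x ∈ Z, g x = ∑ x ∈ Zᶜ, g x)
    (hcond : ∀ X ⊆ Z, ∀ Y ⊆ Zᶜ, ∑ y ∈ Y, g y ≤ ∑ x ∈ X, g x +
      (S.filter fun e => pe src tgt Z e ∉ X ∧ qe src tgt Z e ∈ Y).card) :
    ∃ F ⊆ S, ∀ x, (F.filter fun e => src e = x ∨ tgt e = x).card = g x := by
  classical
  have hs1 : ∀ X : Finset V, ∑ x ∈ X, (if x ∈ Z then g x else 0) = ∑ x ∈ X ∩ Z, g x := by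
    intro X
    rw [sum_ite_mem]
  have hs2 : ∀ Y : Finset V, ∑ y ∈ Y, (if y ∈ Z then 0 else g y) = ∑ y ∈ Y ∩ Zᶜ, g y := by
    intro Y
    rw [← sum_ite_mem]
    apply sum_congr rfl
    intro y _
    by_cases h : y ∈ Z
    · rw [if_pos h, if_neg (by rw [mem_compl, not_not]; exact h)]
    · rw [if_neg h, if_pos (mem_compl.mpr h)]
  obtain ⟨F, hFS, hF1, hF2⟩ := exists_factor S (pe src tgt Z) (qe src tgt Z)
    (fun x => if x ∈ Z then g x else 0) (fun y => if y ∈ Z then 0 else g y)
    (by rw [hs1, hs2, univ_inter, univ_inter]; exact hsum)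
    (by
      intro X Y
      rw [hs1, hs2]
      refine (hcond (X ∩ Z) inter_subset_right (Y ∩ Zᶜ) inter_subset_right).trans ?_
      apply Nat.add_le_add_left
      apply card_le_card
      intro e he
      obtain ⟨h1, h2, h3⟩ := mem_filter.mp he
      refine mem_filter.mpr ⟨h1, ?_, (mem_inter.mp h3).1⟩
      intro h4
      exact h2 (mem_inter.mpr ⟨h4, pe_mem src tgt (hS e h1)⟩))
  refine ⟨F, hFS, fun x => ?_⟩
  by_cases hx : x ∈ Z
  · have h1 := hF1 x
    rw [if_pos hx] at h1
    rw [← h1]
    congr 1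
    ext e
    simp only [mem_filter]
    constructor
    · rintro ⟨h2, h3⟩
      exact ⟨h2, (pe_eq_iff src tgt (hS e (hFS h2)) hx).mpr h3⟩
    · rintro ⟨h2, h3⟩
      exact ⟨h2, (pe_eq_iff src tgt (hS e (hFS h2)) hx).mp h3⟩
  · have h1 := hF2 x
    rw [if_neg hx] at h1
    rw [← h1]
    congr 1
    ext e
    simp only [mem_filter]
    constructor
    · rintro ⟨h2, h3⟩
      exact ⟨h2, (qe_eq_iff src tgt (hS e (hFS h2)) hx).mpr h3⟩
    · rintro ⟨h2, h3⟩
      exact ⟨h2, (qe_eq_iff src tgt (hS e (hFS h2)) hx).mp h3⟩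

end inc

section count

variable [Fintype E] (src tgt : E → V)

/-- number of edge ends in `X` whose other end is in `Y` -/
def J (X Y : Finset V) : ℕ :=
  (univ.filter fun e => src e ∈ X ∧ tgt e ∈ Y).card +
    (univ.filter fun e => tgt e ∈ X ∧ src e ∈ Y).card

theorem J_comm (X Y : Finset V) : J src tgt X Y = J src tgt Y X := by
  unfold J
  rw [add_comm]
  congr 2 <;> (ext e; simp only [mem_filter]; tauto)

theorem J_union_left {X X' : Finset V} (h : Disjoint X X') (Y : Finset V) :
    J src tgt (X ∪ X') Y = J src tgt X Y + J src tgt X' Y := by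
  have h1 : ∀ f g : E → V, (univ.filter fun e => f e ∈ X ∪ X' ∧ g e ∈ Y).card =
      (univ.filter fun e => f e ∈ X ∧ g e ∈ Y).card +
      (univ.filter fun e => f e ∈ X' ∧ g e ∈ Y).card := by
    intro f g
    rw [← card_union_of_disjoint]
    · congr 1
      ext e
      simp only [mem_filter, mem_union]
      tauto
    · rw [disjoint_left]
      intro e he he'
      exact disjoint_left.mp h (mem_filter.mp he).2.1 (mem_filter.mp he').2.1
  unfold J
  rw [h1 src tgt, h1 tgt src]
  omega

theorem J_union_right {Y Y' : Finset V} (h : Disjoint Y Y') (X : Finset V) :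
    J src tgt X (Y ∪ Y') = J src tgt X Y + J src tgt X Y' := by
  rw [J_comm, J_union_left src tgt h, J_comm, J_comm src tgt Y']

theorem J_mono {X X' Y Y' : Finset V} (h : X ⊆ X') (h' : Y ⊆ Y') :
    J src tgt X Y ≤ J src tgt X' Y' := by
  unfold J
  apply Nat.add_le_add <;>
  · apply card_le_card
    intro e he
    obtain ⟨_, h1, h2⟩ := mem_filter.mp he
    exact mem_filter.mpr ⟨mem_univ _, h h1, h' h2⟩

theorem J_singleton_self (hl : ∀ e, src e ≠ tgt e) (u : V) : J src tgt {u} {u} = 0 := by
  unfold J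
  rw [Nat.add_eq_zero_iff, card_eq_zero, card_eq_zero, filter_eq_empty_iff, filter_eq_empty_iff]
  constructor
  · rintro e _ ⟨h1, h2⟩
    exact hl e ((mem_singleton.mp h1).trans (mem_singleton.mp h2).symm)
  · rintro e _ ⟨h1, h2⟩
    exact hl e ((mem_singleton.mp h2).trans (mem_singleton.mp h1).symm)

theorem J_sum (X Y : Finset V) : J src tgt X Y = ∑ x ∈ X, J src tgt {x} Y := by
  induction X using Finset.induction_on with
  | empty => simp [J]
  | insert a X ha ih =>
    rw [sum_insert ha, ← ih, insert_eq, J_union_left]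
    rw [disjoint_singleton_left]
    exact ha

/-- counting the edges joining `x` to `Y` -/
theorem card_join {x : V} {Y : Finset V} (hx : x ∉ Y) :
    (univ.filter fun e => (src e = x ∧ tgt e ∈ Y) ∨ (tgt e = x ∧ src e ∈ Y)).card =
      J src tgt {x} Y := by
  unfold J
  rw [← card_union_of_disjoint]
  · congr 1
    ext e
    simp only [mem_filter, mem_union, mem_singleton, mem_univ, true_and]
  · rw [disjoint_left]
    intro e he he'
    obtain ⟨_, h1, _⟩ := mem_filter.mp he
    obtain ⟨_, _, h2⟩ := mem_filter.mp he'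
    rw [mem_singleton.mp h1] at h2
    exact hx h2

theorem J_univ (hl : ∀ e, src e ≠ tgt e) {r : ℕ}
    (hreg : ∀ x, (univ.filter fun e => src e = x ∨ tgt e = x).card = r) (X : Finset V) :
    J src tgt X univ = r * X.card := by
  rw [J_sum, mul_comm, ← smul_eq_mul, ← sum_const]
  apply sum_congr rfl
  intro x _
  rw [← hreg x]
  unfold J
  rw [← card_union_of_disjoint]
  · congr 1
    ext e
    simp only [mem_filter, mem_union, mem_singleton, mem_univ, true_and, and_true]
  · rw [disjoint_left]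
    intro e he he'
    obtain ⟨_, h1, _⟩ := mem_filter.mp he
    obtain ⟨_, h2, _⟩ := mem_filter.mp he'
    exact hl e ((mem_singleton.mp h1).trans (mem_singleton.mp h2).symm)

theorem card_cut (X : Finset V) :
    (univ.filter fun e => (src e ∈ X ∧ tgt e ∉ X) ∨ (src e ∉ X ∧ tgt e ∈ X)).card =
      J src tgt X Xᶜ := by
  unfold J
  rw [← card_union_of_disjoint]
  · congr 1
    ext e
    simp only [mem_filter, mem_union, mem_compl, mem_univ, true_and]
    tauto
  · rw [disjoint_left]
    intro e he he'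
    obtain ⟨_, h1, _⟩ := mem_filter.mp he
    obtain ⟨_, _, h2⟩ := mem_filter.mp he'
    exact mem_compl.mp h2 h1

end count

end Pool.Agent.MP_fafec5_co
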