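import Mathlib
import Pool.Agent.Lib.MP_fafec5_co.Defs
import Pool.Agent.Lib.MP_fafec5_co.Graph

/-!
# r-graphs that become bipartite after deleting two vertices
-/

set_option autoImplicit false
set_option linter.unusedSectionVars false

namespace Pool.Agent.MP_fafec5_co

open Finset

variable {V E : Type} [Fintype V] [Fintype E] [DecidableEq V] [DecidableEq E] {src tgt : E → V}

theorem no_edge_of_J_zero {X Y : Finset V} (h : J src tgt X Y = 0) (e : E) :
    ¬ (src e ∈ X ∧ tgt e ∈ Y) ∧ ¬ (tgt e ∈ X ∧ src e ∈ Y) := by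
  unfold J at h
  rw [Nat.add_eq_zero_iff, card_eq_zero, card_eq_zero, filter_eq_empty_iff,
    filter_eq_empty_iff] at h
  exact ⟨h.1 (mem_univ e), h.2 (mem_univ e)⟩

/-- from natural-number colourings to matching partitions -/
theorem partition_of_nat {r : ℕ} (c : E → ℕ) (hc : ∀ e, c e < r)
    (h : ∀ x, ∀ i < r, (univ.filter fun e => (src e = x ∨ tgt e = x) ∧ c e = i).card = 1) :
    ∃ c' : E → Fin r, MatchingPartition src tgt c' := by
  refine ⟨fun e => ⟨c e, hc e⟩, fun x i => ?_⟩
  obtain ⟨e, he⟩ := card_eq_one.mp (h x i.1 i.2)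
  have he' : ∀ e', ((src e' = x ∨ tgt e' = x) ∧ c e' = i.1) ↔ e' = e := by
    intro e'
    have h1 : e' ∈ ({e} : Finset E) ↔ e' = e := mem_singleton
    rw [← h1, ← he, mem_filter]
    simp only [mem_univ, true_and]
  refine ⟨e, ?_, ?_⟩
  · have := (he' e).mpr rfl
    exact ⟨this.1, Fin.ext this.2⟩
  · rintro e' ⟨h1, h2⟩
    exact (he' e').mp ⟨h1, congrArg Fin.val h2⟩

/-- bipartite regular case -/
theorem colour_of_bip {r : ℕ} (Z : Finset V) (h1 : J src tgt Z Z = 0) (h2 : J src tgt Zᶜ Zᶜ = 0)
    (hreg : ∀ x, (univ.filter fun e => src e = x ∨ tgt e = x).card = r) :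
    ∃ c' : E → Fin r, MatchingPartition src tgt c' := by
  have hcross : ∀ e ∈ (univ : Finset E), Cross src tgt Z e := by
    intro e _
    have h3 := (no_edge_of_J_zero h1 e).1
    have h4 := (no_edge_of_J_zero h2 e).1
    rw [mem_compl, mem_compl] at h4
    unfold Cross
    tauto
  obtain ⟨c, hc1, hc2⟩ := konig_inc src tgt Z univ r hcross hreg
  exact partition_of_nat c (fun e => hc1 e (mem_univ e)) hc2

/-- the main case: equal sides -/
theorem main_case {r : ℕ} (h : IsRGraph src tgt r) {u v : V} (huv : u ≠ v) {A B : Finset V}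
    (huA : u ∉ A) (huB : u ∉ B) (hvA : v ∉ A) (hvB : v ∉ B) (hAB : Disjoint A B)
    (hun : (univ : Finset V) = ((A ∪ B) ∪ {u}) ∪ {v}) (hA : J src tgt A A = 0)
    (hB : J src tgt B B = 0) (hcard : A.card = B.card) :
    ∃ c' : E → Fin r, MatchingPartition src tgt c' := by
  classical
  have hl := h.loopless
  have hreg := h.regular
  have hdu : Disjoint (A ∪ B) {u} := by
    rw [disjoint_singleton_right, mem_union]
    tauto
  have hdv : Disjoint ((A ∪ B) ∪ {u}) {v} := by
    rw [disjoint_singleton_right, mem_union, mem_union, mem_singleton]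
    tauto
  have hsplit : ∀ X : Finset V, J src tgt X A + J src tgt X B + J src tgt X {u} +
      J src tgt X {v} = r * X.card := by
    intro X
    rw [← J_univ src tgt hl hreg X, hun, J_union_right src tgt hdv, J_union_right src tgt hdu,
      J_union_right src tgt hAB]
  have hAA : ∀ X ⊆ A, J src tgt X A = 0 := fun X hX =>
    Nat.le_zero.mp ((J_mono src tgt hX subset_rfl).trans hA.le)
  have hBB : ∀ Y ⊆ B, J src tgt Y B = 0 := fun Y hY =>
    Nat.le_zero.mp ((J_mono src tgt hY subset_rfl).trans hB.le)
  -- the numbers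
  have e1 := hsplit {u}
  have e2 := hsplit {v}
  have e3 := hsplit A
  have e4 := hsplit B
  rw [J_singleton_self src tgt hl u, card_singleton] at e1
  rw [J_singleton_self src tgt hl v, card_singleton] at e2
  rw [hA] at e3
  rw [hB] at e4
  rw [J_comm src tgt B A] at e4
  rw [J_comm src tgt {u} A, J_comm src tgt {u} B] at e1
  rw [J_comm src tgt {v} A, J_comm src tgt {v} B, J_comm src tgt {v} {u}] at e2
  rw [hcard] at e3
  -- `a = α + m`, `b = β`
  obtain ⟨a, ha⟩ : ∃ a, a = J src tgt A {u} + J src tgt {u} {v} := ⟨_, rfl⟩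
  obtain ⟨b, hb⟩ : ∃ b, b = J src tgt B {u} := ⟨_, rfl⟩
  have hab : a + b = r := by omega
  have ha2 : J src tgt B {v} + J src tgt {u} {v} = a := by omega
  have hb2 : J src tgt A {v} = b := by omega
  -- key inequality
  have key : ∀ X ⊆ A, ∀ Y ⊆ B, J src tgt X Y + J src tgt X {u} + J src tgt Y {u} ≤
      a * X.card + b * Y.card := by
    intro X hX Y hY
    have f1 := hsplit X
    have f2 := hsplit Y
    rw [hAA X hX] at f1
    rw [hBB Y hY, J_comm src tgt Y A] at f2
    have f3 : J src tgt X Y ≤ J src tgt A Y := J_mono src tgt hX subset_rfl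
    have f4 : J src tgt X Y ≤ J src tgt X B := J_mono src tgt subset_rfl hY
    have f5 : J src tgt X {u} ≤ J src tgt A {u} := J_mono src tgt hX subset_rfl
    have f6 : J src tgt Y {u} ≤ J src tgt B {u} := J_mono src tgt hY subset_rfl
    rw [← hab, add_mul] at f1 f2
    rcases lt_trichotomy X.card Y.card with hlt | heq | hgt
    · -- |X| < |Y|
      have f7 : b * X.card + b ≤ b * Y.card := by
        rw [← Nat.mul_succ]
        exact Nat.mul_le_mul_left b hlt
      omega
    · -- |X| = |Y|
      have hXY : Disjoint X Y := disjoint_of_subset_left hX (disjoint_of_subset_right hY hAB)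
      have huXY : Disjoint (X ∪ Y) {u} := by
        rw [disjoint_singleton_right, mem_union]
        rintro (h7 | h7)
        · exact huA (hX h7)
        · exact huB (hY h7)
      let W : Finset V := (X ∪ Y) ∪ {u}
      have hW : W.card = X.card + Y.card + 1 := by
        rw [card_union_of_disjoint huXY, card_union_of_disjoint hXY, card_singleton]
      have hodd : Odd W.card := by
        rw [hW, heq]
        exact ⟨Y.card, by ring⟩
      have f8 := h.cut W hodd
      rw [card_cut] at f8
      have f9 : J src tgt W W + J src tgt W Wᶜ = r * W.card := by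
        rw [← J_univ src tgt hl hreg W, ← J_union_right src tgt disjoint_compl_right,
          union_compl]
      have f10 : J src tgt W W = 2 * (J src tgt X Y + J src tgt X {u} + J src tgt Y {u}) := by
        change J src tgt ((X ∪ Y) ∪ {u}) ((X ∪ Y) ∪ {u}) = _
        rw [J_union_left src tgt huXY, J_union_right src tgt huXY, J_union_right src tgt huXY,
          J_union_left src tgt hXY, J_union_left src tgt hXY, J_union_right src tgt hXY,
          J_union_right src tgt hXY, J_union_right src tgt hXY, J_singleton_self src tgt hl u,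
          J_comm src tgt {u} X, J_comm src tgt {u} Y, J_comm src tgt Y X]
        have g1 : J src tgt X X = 0 :=
          Nat.le_zero.mp ((J_mono src tgt hX hX).trans hA.le)
        have g2 : J src tgt Y Y = 0 :=
          Nat.le_zero.mp ((J_mono src tgt hY hY).trans hB.le)
        omega
      rw [f10, hW, heq] at f9
      have f11 : r * (Y.card + Y.card + 1) = 2 * (a * Y.card + b * Y.card) + r := by
        rw [← hab]
        ring
      rw [heq]
      omega
    · have f7 : a * Y.card + a ≤ a * X.card := by
        rw [← Nat.mul_succ]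
        exact Nat.mul_le_mul_left a hgt
      omega
  -- every vertex is of one of four kinds
  have hcases : ∀ x : V, x ∈ A ∨ x ∈ B ∨ x = u ∨ x = v := by
    intro x
    have h1 : x ∈ ((A ∪ B) ∪ {u}) ∪ {v} := by
      rw [← hun]
      exact mem_univ x
    simp only [mem_union, mem_singleton] at h1
    tauto
  have hAB' : ∀ x, x ∈ A → x ∉ B := fun x hx => disjoint_left.mp hAB hx
  obtain ⟨Z, hZdef⟩ : ∃ Z : Finset V, Z = A ∪ {v} := ⟨_, rfl⟩
  have hZ : ∀ x, x ∈ Z ↔ (x ∈ A ∨ x = v) := by
    intro x
    rw [hZdef, mem_union, mem_singleton]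
  obtain ⟨H, hHdef⟩ : ∃ H : Finset E, H = univ.filter (fun e =>
    (src e ∈ A ∧ tgt e ∈ B) ∨ (src e ∈ B ∧ tgt e ∈ A)) := ⟨_, rfl⟩
  have hH : ∀ e, e ∈ H ↔ ((src e ∈ A ∧ tgt e ∈ B) ∨ (src e ∈ B ∧ tgt e ∈ A)) := by
    intro e
    rw [hHdef, mem_filter]
    simp only [mem_univ, true_and]
  obtain ⟨g, hgdef⟩ : ∃ g : V → ℕ, g = fun x => if x ∈ A then a - J src tgt {x} {u} else
    if x ∈ B then a - J src tgt {x} {v} else 0 := ⟨_, rfl⟩
  have hgA : ∀ x ∈ A, g x + J src tgt {x} {u} = a := by
    intro x hx
    rw [hgdef]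
    simp only [if_pos hx]
    have h1 : J src tgt {x} {u} ≤ J src tgt A {u} :=
      J_mono src tgt (singleton_subset_iff.mpr hx) subset_rfl
    omega
  have hgB : ∀ x ∈ B, g x + J src tgt {x} {v} = a := by
    intro x hx
    rw [hgdef]
    have hx' : x ∉ A := fun h1 => hAB' x h1 hx
    simp only [if_pos hx, if_neg hx']
    have h1 : J src tgt {x} {v} ≤ J src tgt B {v} :=
      J_mono src tgt (singleton_subset_iff.mpr hx) subset_rfl
    omega
  have hgu : g u = 0 := by
    rw [hgdef]
    simp only [if_neg huA, if_neg huB]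
  have hgv : g v = 0 := by
    rw [hgdef]
    simp only [if_neg hvA, if_neg hvB]
  have hsA : ∀ X ⊆ A, ∑ x ∈ X, g x + J src tgt X {u} = a * X.card := by
    intro X hX
    rw [J_sum, ← sum_add_distrib, mul_comm, ← smul_eq_mul, ← sum_const]
    exact sum_congr rfl fun x hx => hgA x (hX hx)
  have hsB : ∀ Y ⊆ B, ∑ y ∈ Y, g y + J src tgt Y {v} = a * Y.card := by
    intro Y hY
    rw [J_sum, ← sum_add_distrib, mul_comm, ← smul_eq_mul, ← sum_const]
    exact sum_congr rfl fun x hx => hgB x (hY hx)
  have hsX : ∀ X ⊆ Z, ∑ x ∈ X, g x = ∑ x ∈ X ∩ A, g x := by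
    intro X hX
    symm
    apply sum_subset inter_subset_left
    intro x hx hx'
    rcases (hZ x).mp (hX hx) with h1 | h1
    · exact absurd (mem_inter.mpr ⟨hx, h1⟩) hx'
    · rw [h1, hgv]
  have hsY : ∀ Y ⊆ Zᶜ, ∑ y ∈ Y, g y = ∑ y ∈ Y ∩ B, g y := by
    intro Y hY
    symm
    apply sum_subset inter_subset_left
    intro x hx hx'
    have h1 := mem_compl.mp (hY hx)
    rw [hZ] at h1
    rcases hcases x with h2 | h2 | h2 | h2
    · exact absurd (Or.inl h2) h1
    · exact absurd (mem_inter.mpr ⟨hx, h2⟩) hx'
    · rw [h2, hgu]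
    · exact absurd (Or.inr h2) h1
  have hHcross : ∀ e ∈ H, Cross src tgt Z e := by
    intro e he
    rcases (hH e).mp he with ⟨h1, h2⟩ | ⟨h1, h2⟩
    · left
      refine ⟨(hZ _).mpr (Or.inl h1), ?_⟩
      rw [hZ]
      rintro (h3 | h3)
      · exact hAB' _ h3 h2
      · rw [h3] at h2
        exact hvB h2
    · right
      refine ⟨?_, (hZ _).mpr (Or.inl h2)⟩
      rw [hZ]
      rintro (h3 | h3)
      · exact hAB' _ h3 h1
      · rw [h3] at h1
        exact hvB h1
  obtain ⟨F, hFH, hF⟩ := factor_inc src tgt Z H g hHcross (by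
      rw [hsX Z subset_rfl, hsY Zᶜ subset_rfl]
      have h1 : Z ∩ A = A := by
        apply inter_eq_right.mpr
        intro x hx
        exact (hZ x).mpr (Or.inl hx)
      have h2 : Zᶜ ∩ B = B := by
        apply inter_eq_right.mpr
        intro x hx
        rw [mem_compl, hZ]
        rintro (h3 | h3)
        · exact hAB' _ h3 hx
        · rw [h3] at hx
          exact hvB hx
      rw [h1, h2]
      have h3 := hsA A subset_rfl
      have h4 := hsB B subset_rfl
      rw [hcard] at h3
      omega) (by
      intro X hX Y hY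
      rw [hsX X hX, hsY Y hY]
      have h1 := hsA (X ∩ A) inter_subset_right
      have h2 := hsB (Y ∩ B) inter_subset_right
      have h3 := key (X ∩ A) inter_subset_right (Y ∩ B) inter_subset_right
      have h4 := hsplit (Y ∩ B)
      rw [hBB _ inter_subset_right, J_comm src tgt (Y ∩ B) A, ← hab, add_mul] at h4
      have h5 : J src tgt A (Y ∩ B) = J src tgt (X ∩ A) (Y ∩ B) +
          J src tgt (A \ (X ∩ A)) (Y ∩ B) := by
        rw [← J_union_left src tgt disjoint_sdiff]
        congr 1
        rw [union_sdiff_of_subset inter_subset_right]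
      have h6 : J src tgt (A \ (X ∩ A)) (Y ∩ B) ≤
          (H.filter fun e => pe src tgt Z e ∉ X ∧ qe src tgt Z e ∈ Y).card := by
        unfold J
        rw [← card_union_of_disjoint]
        · apply card_le_card
          intro e he
          have hsd : ∀ x, x ∈ A \ (X ∩ A) → x ∈ A ∧ x ∉ X := by
            intro x hx
            obtain ⟨g1, g2⟩ := mem_sdiff.mp hx
            exact ⟨g1, fun g3 => g2 (mem_inter.mpr ⟨g3, g1⟩)⟩
          rcases mem_union.mp he with he | he
          · obtain ⟨_, g1, g2⟩ := mem_filter.mp he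
            obtain ⟨g3, g4⟩ := mem_inter.mp g2
            obtain ⟨g5, g6⟩ := hsd _ g1
            have g7 : src e ∈ Z := (hZ _).mpr (Or.inl g5)
            refine mem_filter.mpr ⟨(hH e).mpr (Or.inl ⟨g5, g4⟩), ?_, ?_⟩
            · unfold pe
              rw [if_pos g7]
              exact g6
            · unfold qe
              rw [if_pos g7]
              exact g3
          · obtain ⟨_, g1, g2⟩ := mem_filter.mp he
            obtain ⟨g3, g4⟩ := mem_inter.mp g2
            obtain ⟨g5, g6⟩ := hsd _ g1
            have g7 : src e ∉ Z := by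
              rw [hZ]
              rintro (g8 | g8)
              · exact hAB' _ g8 g4
              · rw [g8] at g4
                exact hvB g4
            refine mem_filter.mpr ⟨(hH e).mpr (Or.inr ⟨g4, g5⟩), ?_, ?_⟩
            · unfold pe
              rw [if_neg g7]
              exact g6
            · unfold qe
              rw [if_neg g7]
              exact g3
        · rw [disjoint_left]
          intro e he he'
          obtain ⟨_, g1, _⟩ := mem_filter.mp he
          obtain ⟨_, _, g2⟩ := mem_filter.mp he'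
          exact hAB' _ (mem_sdiff.mp g1).1 (mem_inter.mp g2).2
      omega)
  -- the edges at `u`, `v` that cross `Z`
  obtain ⟨T, hTdef⟩ : ∃ T : Finset E, T = univ.filter (fun e => Cross src tgt Z e ∧
    (src e = u ∨ tgt e = u ∨ src e = v ∨ tgt e = v)) := ⟨_, rfl⟩
  have hT : ∀ e, e ∈ T ↔ (Cross src tgt Z e ∧
      (src e = u ∨ tgt e = u ∨ src e = v ∨ tgt e = v)) := by
    intro e
    rw [hTdef, mem_filter]
    simp only [mem_univ, true_and]
  have huZ : u ∉ Z := by
    rw [hZ]
    rintro (h1 | h1)
    · exact huA h1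
    · exact huv h1
  have hvZ : v ∈ Z := (hZ v).mpr (Or.inr rfl)
  have hAZ : ∀ x ∈ A, x ∈ Z := fun x hx => (hZ x).mpr (Or.inl hx)
  have hBZ : ∀ x ∈ B, x ∉ Z := by
    intro x hx
    rw [hZ]
    rintro (h1 | h1)
    · exact hAB' _ h1 hx
    · rw [h1] at hx
      exact hvB hx
  have hne : ∀ x, (x ∈ A ∨ x ∈ B) → x ≠ u ∧ x ≠ v := by
    rintro x (hx | hx)
    · exact ⟨fun h1 => huA (h1 ▸ hx), fun h1 => hvA (h1 ▸ hx)⟩
    · exact ⟨fun h1 => huB (h1 ▸ hx), fun h1 => hvB (h1 ▸ hx)⟩
  have hFT : Disjoint F T := by
    rw [disjoint_left]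
    intro e he he'
    have h1 := (hH e).mp (hFH he)
    have h2 := ((hT e).mp he').2
    rcases h1 with ⟨h3, h4⟩ | ⟨h3, h4⟩
    · have := hne _ (Or.inl h3)
      have := hne _ (Or.inr h4)
      tauto
    · have := hne _ (Or.inr h3)
      have := hne _ (Or.inl h4)
      tauto
  have hTdeg : ∀ x, g x + (T.filter fun e => src e = x ∨ tgt e = x).card = a := by
    intro x
    rcases hcases x with hx | hx | hx | hx
    · have h1 : (T.filter fun e => src e = x ∨ tgt e = x).card = J src tgt {x} {u} := by
        rw [← card_join src tgt (x := x) (Y := {u}) (by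
          rw [mem_singleton]; exact (hne x (Or.inl hx)).1)]
        congr 1
        ext e
        simp only [mem_filter, hT, Cross, mem_singleton, mem_univ, true_and]
        have h2 := hne x (Or.inl hx)
        have h3 := hAZ x hx
        constructor
        · rintro ⟨⟨h4, h5⟩, h6 | h6⟩
          · rw [h6] at h4 h5
            refine Or.inl ⟨h6, ?_⟩
            rcases h4 with ⟨_, h7⟩ | ⟨h7, _⟩
            · rcases h5 with h5 | h5 | h5 | h5
              · exact absurd h5 h2.1
              · exact h5
              · exact absurd h5 h2.2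
              · rw [h5] at h7
                exact absurd hvZ h7
            · exact absurd h3 h7
          · rw [h6] at h4 h5
            refine Or.inr ⟨h6, ?_⟩
            rcases h4 with ⟨_, h7⟩ | ⟨h7, _⟩
            · exact absurd h3 h7
            · rcases h5 with h5 | h5 | h5 | h5
              · exact h5
              · exact absurd h5 h2.1
              · rw [h5] at h7
                exact absurd hvZ h7
              · exact absurd h5 h2.2
        · rintro (⟨h4, h5⟩ | ⟨h4, h5⟩)
          · rw [h4, h5]
            exact ⟨⟨Or.inl ⟨h3, huZ⟩, Or.inr (Or.inl rfl)⟩, Or.inl rfl⟩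
          · rw [h4, h5]
            exact ⟨⟨Or.inr ⟨huZ, h3⟩, Or.inl rfl⟩, Or.inr rfl⟩
      rw [h1]
      exact hgA x hx
    · have h1 : (T.filter fun e => src e = x ∨ tgt e = x).card = J src tgt {x} {v} := by
        rw [← card_join src tgt (x := x) (Y := {v}) (by
          rw [mem_singleton]; exact (hne x (Or.inr hx)).2)]
        congr 1
        ext e
        simp only [mem_filter, hT, Cross, mem_singleton, mem_univ, true_and]
        have h2 := hne x (Or.inr hx)
        have h3 := hBZ x hx
        constructor
        · rintro ⟨⟨h4, h5⟩, h6 | h6⟩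
          · rw [h6] at h4 h5
            refine Or.inl ⟨h6, ?_⟩
            rcases h4 with ⟨h7, _⟩ | ⟨_, h7⟩
            · exact absurd h7 h3
            · rcases h5 with h5 | h5 | h5 | h5
              · exact absurd h5 h2.1
              · rw [h5] at h7
                exact absurd h7 huZ
              · exact absurd h5 h2.2
              · exact h5
          · rw [h6] at h4 h5
            refine Or.inr ⟨h6, ?_⟩
            rcases h4 with ⟨h7, _⟩ | ⟨_, h7⟩
            · rcases h5 with h5 | h5 | h5 | h5
              · rw [h5] at h7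
                exact absurd h7 huZ
              · exact absurd h5 h2.1
              · exact h5
              · exact absurd h5 h2.2
            · exact absurd h7 h3
        · rintro (⟨h4, h5⟩ | ⟨h4, h5⟩)
          · rw [h4, h5]
            exact ⟨⟨Or.inr ⟨h3, hvZ⟩, Or.inr (Or.inr (Or.inr rfl))⟩, Or.inl rfl⟩
          · rw [h4, h5]
            exact ⟨⟨Or.inl ⟨hvZ, h3⟩, Or.inr (Or.inr (Or.inl rfl))⟩, Or.inr rfl⟩
      rw [h1]
      exact hgB x hx
    · subst hx
      have h1 : (T.filter fun e => src e = x ∨ tgt e = x).card = J src tgt {x} Z := by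
        rw [← card_join src tgt huZ]
        congr 1
        ext e
        simp only [mem_filter, hT, Cross, mem_univ, true_and]
        constructor
        · rintro ⟨⟨h4, _⟩, h6 | h6⟩
          · rw [h6] at h4
            exact Or.inl ⟨h6, by tauto⟩
          · rw [h6] at h4
            exact Or.inr ⟨h6, by tauto⟩
        · rintro (⟨h4, h5⟩ | ⟨h4, h5⟩)
          · rw [h4]
            exact ⟨⟨Or.inr ⟨huZ, h5⟩, Or.inl rfl⟩, Or.inl rfl⟩
          · rw [h4]
            exact ⟨⟨Or.inl ⟨h5, huZ⟩, Or.inr (Or.inl rfl)⟩, Or.inr rfl⟩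
      rw [h1, hgu, hZdef, J_union_right src tgt (by
        rw [disjoint_singleton_right]; exact hvA), J_comm src tgt {x} A]
      omega
    · subst hx
      have h1 : (T.filter fun e => src e = x ∨ tgt e = x).card = J src tgt {x} Zᶜ := by
        rw [← card_join src tgt (x := x) (Y := Zᶜ) (by rw [mem_compl, not_not]; exact hvZ)]
        congr 1
        ext e
        simp only [mem_filter, hT, Cross, mem_compl, mem_univ, true_and]
        constructor
        · rintro ⟨⟨h4, _⟩, h6 | h6⟩
          · rw [h6] at h4
            exact Or.inl ⟨h6, by tauto⟩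
          · rw [h6] at h4
            exact Or.inr ⟨h6, by tauto⟩
        · rintro (⟨h4, h5⟩ | ⟨h4, h5⟩)
          · rw [h4]
            exact ⟨⟨Or.inl ⟨hvZ, h5⟩, Or.inr (Or.inr (Or.inl rfl))⟩, Or.inl rfl⟩
          · rw [h4]
            exact ⟨⟨Or.inr ⟨h5, hvZ⟩, Or.inr (Or.inr (Or.inr rfl))⟩, Or.inr rfl⟩
      have h2 : Zᶜ = B ∪ {u} := by
        ext y
        rw [mem_compl, mem_union, mem_singleton]
        constructor
        · intro hy
          rcases hcases y with h3 | h3 | h3 | h3
          · exact absurd (hAZ y h3) hy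
          · exact Or.inl h3
          · exact Or.inr h3
          · rw [h3] at hy
            exact absurd hvZ hy
        · rintro (h3 | h3)
          · exact hBZ y h3
          · rw [h3]
            exact huZ
      rw [h1, hgv, h2, J_union_right src tgt (by
        rw [disjoint_singleton_right]; exact huB), J_comm src tgt {x} B, J_comm src tgt {x} {u}]
      omega
  -- the two bipartite pieces
  obtain ⟨S, hSdef⟩ : ∃ S : Finset E, S = F ∪ T := ⟨_, rfl⟩
  have hScross : ∀ e ∈ S, Cross src tgt Z e := by
    intro e he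
    rw [hSdef, mem_union] at he
    rcases he with he | he
    · exact hHcross e (hFH he)
    · exact ((hT e).mp he).1
  have hSdeg : ∀ x, (S.filter fun e => src e = x ∨ tgt e = x).card = a := by
    intro x
    rw [hSdef, filter_union, card_union_of_disjoint
      (disjoint_filter_filter hFT), hF x]
    exact hTdeg x
  have hS2cross : ∀ e ∈ Sᶜ, Cross src tgt (A ∪ {u}) e := by
    intro e he
    rw [mem_compl, hSdef, mem_union] at he
    have heT : e ∉ T := fun h1 => he (Or.inr h1)
    have h1 := (no_edge_of_J_zero hA e).1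
    have h2 := (no_edge_of_J_zero hB e).1
    have h3 := hl e
    have k1 : ∀ x ∈ A, x ∈ A ∪ {u} := fun x hx => mem_union_left _ hx
    have k2 : u ∈ A ∪ {u} := mem_union_right _ (mem_singleton_self u)
    have k3 : ∀ x ∈ B, x ∉ A ∪ {u} := by
      intro x hx h4
      rcases mem_union.mp h4 with h5 | h5
      · exact hAB' x h5 hx
      · exact (hne x (Or.inr hx)).1 (mem_singleton.mp h5)
    have k4 : v ∉ A ∪ {u} := by
      intro h4
      rcases mem_union.mp h4 with h5 | h5
      · exact hvA h5
      · exact huv (mem_singleton.mp h5).symm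
    rcases hcases (src e) with s1 | s1 | s1 | s1
    · rcases hcases (tgt e) with t1 | t1 | t1 | t1
      · exact absurd ⟨s1, t1⟩ h1
      · exact Or.inl ⟨k1 _ s1, k3 _ t1⟩
      · exfalso
        apply heT
        rw [hT]
        refine ⟨Or.inl ⟨hAZ _ s1, ?_⟩, Or.inr (Or.inl t1)⟩
        rw [t1]
        exact huZ
      · refine Or.inl ⟨k1 _ s1, ?_⟩
        rw [t1]
        exact k4
    · rcases hcases (tgt e) with t1 | t1 | t1 | t1
      · exact Or.inr ⟨k3 _ s1, k1 _ t1⟩
      · exact absurd ⟨s1, t1⟩ h2
      · refine Or.inr ⟨k3 _ s1, ?_⟩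
        rw [t1]
        exact k2
      · exfalso
        apply heT
        rw [hT]
        refine ⟨Or.inr ⟨hBZ _ s1, ?_⟩, Or.inr (Or.inr (Or.inr t1))⟩
        rw [t1]
        exact hvZ
    · rcases hcases (tgt e) with t1 | t1 | t1 | t1
      · exfalso
        apply heT
        rw [hT]
        refine ⟨Or.inr ⟨?_, hAZ _ t1⟩, Or.inl s1⟩
        rw [s1]
        exact huZ
      · refine Or.inl ⟨?_, k3 _ t1⟩
        rw [s1]
        exact k2
      · exact absurd (s1.trans t1.symm) h3
      · refine Or.inl ⟨?_, ?_⟩
        · rw [s1]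
          exact k2
        · rw [t1]
          exact k4
    · rcases hcases (tgt e) with t1 | t1 | t1 | t1
      · refine Or.inr ⟨?_, k1 _ t1⟩
        rw [s1]
        exact k4
      · exfalso
        apply heT
        rw [hT]
        refine ⟨Or.inl ⟨?_, hBZ _ t1⟩, Or.inr (Or.inr (Or.inl s1))⟩
        rw [s1]
        exact hvZ
      · refine Or.inr ⟨?_, ?_⟩
        · rw [s1]
          exact k4
        · rw [t1]
          exact k2
      · exact absurd (s1.trans t1.symm) h3
  have hS2deg : ∀ x, (Sᶜ.filter fun e => src e = x ∨ tgt e = x).card = b := by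
    intro x
    have h1 := hSdeg x
    have h2 := hreg x
    have h3 : (univ.filter fun e => src e = x ∨ tgt e = x).card =
        (S.filter fun e => src e = x ∨ tgt e = x).card +
        (Sᶜ.filter fun e => src e = x ∨ tgt e = x).card := by
      rw [← card_union_of_disjoint (disjoint_filter_filter disjoint_compl_right),
        ← filter_union, union_compl]
    omega
  obtain ⟨c1, hc1, hc1'⟩ := konig_inc src tgt Z S a hScross hSdeg
  obtain ⟨c2, hc2, hc2'⟩ := konig_inc src tgt (A ∪ {u}) Sᶜ b hS2cross hS2deg
  refine partition_of_nat (fun e => if e ∈ S then c1 e else a + c2 e) ?_ ?_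
  · intro e
    by_cases he : e ∈ S
    · simp only [if_pos he]
      have := hc1 e he
      omega
    · simp only [if_neg he]
      have := hc2 e (mem_compl.mpr he)
      omega
  · intro x i hi
    by_cases hia : i < a
    · rw [← hc1' x i hia]
      congr 1
      ext e
      simp only [mem_filter, mem_univ, true_and]
      by_cases he : e ∈ S
      · rw [if_pos he]
        constructor
        · rintro ⟨h1, h2⟩
          exact ⟨he, h1, h2⟩
        · rintro ⟨_, h1, h2⟩
          exact ⟨h1, h2⟩
      · rw [if_neg he]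
        constructor
        · rintro ⟨_, h1⟩
          omega
        · rintro ⟨h1, _⟩
          exact absurd h1 he
    · have hib : i - a < b := by omega
      rw [← hc2' x (i - a) hib]
      congr 1
      ext e
      simp only [mem_filter, mem_univ, true_and, mem_compl]
      by_cases he : e ∈ S
      · rw [if_pos he]
        constructor
        · rintro ⟨_, h1⟩
          have := hc1 e he
          omega
        · rintro ⟨h1, _⟩
          exact absurd he h1
      · rw [if_neg he]
        constructor
        · rintro ⟨h1, h2⟩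
          exact ⟨he, h1, by omega⟩
        · rintro ⟨_, h1, h2⟩
          exact ⟨h1, by omega⟩

/-- **Theorem.**  An `r`-graph which becomes bipartite after deleting two vertices has a partition
into `r` perfect matchings. -/
theorem exists_partition {r : ℕ} (h : IsRGraph src tgt r) {u v : V} (huv : u ≠ v)
    (side : Set V) (hside : ∀ e, src e ≠ u → src e ≠ v → tgt e ≠ u → tgt e ≠ v →
      (src e ∈ side ↔ tgt e ∉ side)) :
    ∃ c : E → Fin r, MatchingPartition src tgt c := by
  classical
  obtain ⟨A, hA⟩ : ∃ A : Finset V, A = univ.filter (fun x => x ∈ side ∧ x ≠ u ∧ x ≠ v) := ⟨_, rfl⟩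
  obtain ⟨B, hB⟩ : ∃ B : Finset V, B = univ.filter (fun x => x ∉ side ∧ x ≠ u ∧ x ≠ v) := ⟨_, rfl⟩
  have hAm : ∀ x, x ∈ A ↔ (x ∈ side ∧ x ≠ u ∧ x ≠ v) := by
    intro x
    rw [hA, mem_filter]
    simp only [mem_univ, true_and]
  have hBm : ∀ x, x ∈ B ↔ (x ∉ side ∧ x ≠ u ∧ x ≠ v) := by
    intro x
    rw [hB, mem_filter]
    simp only [mem_univ, true_and]
  have huA : u ∉ A := fun h1 => ((hAm u).mp h1).2.1 rfl
  have hvA : v ∉ A := fun h1 => ((hAm v).mp h1).2.2 rfl
  have huB : u ∉ B := fun h1 => ((hBm u).mp h1).2.1 rfl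
  have hvB : v ∉ B := fun h1 => ((hBm v).mp h1).2.2 rfl
  have hAB : Disjoint A B := by
    rw [disjoint_left]
    intro x h1 h2
    exact ((hBm x).mp h2).1 ((hAm x).mp h1).1
  have hun : (univ : Finset V) = ((A ∪ B) ∪ {u}) ∪ {v} := by
    symm
    rw [eq_univ_iff_forall]
    intro x
    simp only [mem_union, mem_singleton, hAm, hBm]
    by_cases h1 : x = u
    · exact Or.inl (Or.inr h1)
    · by_cases h2 : x = v
      · exact Or.inr h2
      · by_cases h3 : x ∈ side
        · exact Or.inl (Or.inl (Or.inl ⟨h3, h1, h2⟩))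
        · exact Or.inl (Or.inl (Or.inr ⟨h3, h1, h2⟩))
  have hJA : J src tgt A A = 0 := by
    unfold J
    rw [Nat.add_eq_zero_iff, card_eq_zero, card_eq_zero, filter_eq_empty_iff,
      filter_eq_empty_iff]
    constructor
    · rintro e _ ⟨h1, h2⟩
      rw [hAm] at h1 h2
      exact (hside e h1.2.1 h1.2.2 h2.2.1 h2.2.2).mp h1.1 h2.1
    · rintro e _ ⟨h2, h1⟩
      rw [hAm] at h1 h2
      exact (hside e h1.2.1 h1.2.2 h2.2.1 h2.2.2).mp h1.1 h2.1
  have hJB : J src tgt B B = 0 := by
    unfold J
    rw [Nat.add_eq_zero_iff, card_eq_zero, card_eq_zero, filter_eq_empty_iff,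
      filter_eq_empty_iff]
    constructor
    · rintro e _ ⟨h1, h2⟩
      rw [hBm] at h1 h2
      exact h1.1 ((hside e h1.2.1 h1.2.2 h2.2.1 h2.2.2).mpr h2.1)
    · rintro e _ ⟨h2, h1⟩
      rw [hBm] at h1 h2
      exact h1.1 ((hside e h1.2.1 h1.2.2 h2.2.1 h2.2.2).mpr h2.1)
  have hl := h.loopless
  have hreg := h.regular
  have hdu : Disjoint (A ∪ B) {u} := by
    rw [disjoint_singleton_right, mem_union]
    rintro (h1 | h1)
    · exact huA h1
    · exact huB h1
  have hdv : Disjoint ((A ∪ B) ∪ {u}) {v} := by
    rw [disjoint_singleton_right, mem_union, mem_union, mem_singleton]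
    rintro ((h1 | h1) | h1)
    · exact hvA h1
    · exact hvB h1
    · exact huv h1.symm
  have hsplit : ∀ X : Finset V, J src tgt X A + J src tgt X B + J src tgt X {u} +
      J src tgt X {v} = r * X.card := by
    intro X
    rw [← J_univ src tgt hl hreg X, hun, J_union_right src tgt hdv, J_union_right src tgt hdu,
      J_union_right src tgt hAB]
  have hcV : Fintype.card V = A.card + B.card + 2 := by
    rw [← card_univ, hun, card_union_of_disjoint hdv, card_union_of_disjoint hdu,
      card_union_of_disjoint hAB, card_singleton, card_singleton]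
  have hev := h.even
  rw [hcV] at hev
  have e1 := hsplit {u}
  have e2 := hsplit {v}
  have e3 := hsplit A
  have e4 := hsplit B
  rw [J_singleton_self src tgt hl u, card_singleton, J_comm src tgt {u} A,
    J_comm src tgt {u} B] at e1
  rw [J_singleton_self src tgt hl v, card_singleton, J_comm src tgt {v} A,
    J_comm src tgt {v} B, J_comm src tgt {v} {u}] at e2
  rw [hJA] at e3
  rw [hJB, J_comm src tgt B A] at e4
  -- unequal sides: the graph is bipartite
  have hbip : ∀ P Q : Finset V, (univ : Finset V) = ((P ∪ Q) ∪ {u}) ∪ {v} →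
      Disjoint (P ∪ Q) {u} → Disjoint ((P ∪ Q) ∪ {u}) {v} → Disjoint P Q →
      J src tgt P P = 0 → J src tgt Q Q = 0 → J src tgt Q {u} = 0 → J src tgt Q {v} = 0 →
      J src tgt {u} {v} = 0 → ∃ c : E → Fin r, MatchingPartition src tgt c := by
    intro P Q hPQ d1 d2 d3 g1 g2 g3 g4 g5
    apply colour_of_bip P g1 _ hreg
    have g6 : Pᶜ = (Q ∪ {u}) ∪ {v} := by
      ext x
      rw [mem_compl, mem_union, mem_union, mem_singleton, mem_singleton]
      have g7 : x ∈ ((P ∪ Q) ∪ {u}) ∪ {v} := by
        rw [← hPQ]
        exact mem_univ x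
      rw [mem_union, mem_union, mem_union, mem_singleton, mem_singleton] at g7
      constructor
      · intro g8
        tauto
      · rintro ((g8 | g8) | g8) g9
        · exact disjoint_left.mp d3 g9 g8
        · rw [g8] at g9
          exact disjoint_left.mp d1 (mem_union_left _ g9) (mem_singleton_self u)
        · rw [g8] at g9
          exact disjoint_left.mp d2 (mem_union_left _ (mem_union_left _ g9))
            (mem_singleton_self v)
    have d4 : Disjoint Q {u} := disjoint_of_subset_left subset_union_right d1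
    have d5 : Disjoint (Q ∪ {u}) {v} := by
      refine disjoint_of_subset_left ?_ d2
      exact union_subset_union subset_union_right subset_rfl
    rw [g6, J_union_left src tgt d5, J_union_right src tgt d5, J_union_right src tgt d5,
      J_union_left src tgt d4, J_union_left src tgt d4, J_union_right src tgt d4,
      J_union_right src tgt d4, J_union_right src tgt d4, J_singleton_self src tgt hl u,
      J_singleton_self src tgt hl v, J_comm src tgt {u} Q, J_comm src tgt {v} Q,
      J_comm src tgt {v} {u}, g2, g3, g4, g5]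
  rcases lt_trichotomy A.card B.card with hlt | heq | hgt
  · have h1 : A.card + 2 ≤ B.card := by
      obtain ⟨k, hk⟩ := hev
      omega
    have h2 : r * A.card + r * 2 ≤ r * B.card := by
      rw [← mul_add]
      exact Nat.mul_le_mul_left r h1
    have hun' : (univ : Finset V) = ((B ∪ A) ∪ {u}) ∪ {v} := by rw [union_comm B A]; exact hun
    apply hbip B A hun' (by rw [union_comm B A]; exact hdu) (by rw [union_comm B A]; exact hdv)
      hAB.symm hJB hJA <;> omega
  · exact main_case h huv huA huB hvA hvB hAB hun hJA hJB heq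
  · have h1 : B.card + 2 ≤ A.card := by
      obtain ⟨k, hk⟩ := hev
      omega
    have h2 : r * B.card + r * 2 ≤ r * A.card := by
      rw [← mul_add]
      exact Nat.mul_le_mul_left r h1
    apply hbip A B hun hdu hdv hAB hJA hJB <;> omega

end Pool.Agent.MP_fafec5_co
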